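import Pool.Agent.H34.GU.Targets1
import Pool.Agent.H11.GZ.HLD

/-!
# Row HLU of the board gu (MP_52e316_nt): Hölder's inequality for the approximate functional
equation, several levels
-/

set_option autoImplicit false

namespace Pool.Agent.H11.GU

open MeasureTheory Pool.Agent.H34.GM Pool.Agent.H34.GZ Pool.Agent.H34.GU
open Pool.Agent.H11.GZ (meas_DF log_bd w_bd int_pow)

theorem pf_HLU : T_HLU := by
  intro m hm ε K0 hε
  have hm0 : (0 : ℝ) < m := by exact_mod_cast hm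
  set s : ℝ := min (2 * ε / 5) (2 / 5) with hs
  have hs0 : 0 < s := lt_min (by positivity) (by norm_num)
  have hs1 : 5 * s ≤ 2 := by
    have := min_le_right (2 * ε / 5) (2 / 5 : ℝ)
    linarith
  have hs2 : 1 / 2 * (5 * s) ≤ ε := by
    have h1 := min_le_left (2 * ε / 5) (2 / 5 : ℝ)
    rw [← hs] at h1
    linarith
  set CL : ℝ := (1 + 1 / (s / (K0 + 1))) ^ K0 with hCL
  have hCL0 : 0 < CL := by positivity
  refine ⟨(1 / s) ^ 3 * (CL * (2 ^ m * 2 ^ m) / s) * 2, by positivity, ?_⟩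
  intro Q0 ι _ lam κ B hQ1 hB hκ hyp
  have hQ00 : (0 : ℝ) < Q0 := by linarith
  have h2Q : (0 : ℝ) < 2 * Q0 := by linarith
  set Q : ℝ := (2 * Q0) ^ ((1 : ℝ) / 2) with hQ
  have hQ0 : 0 < Q := Real.rpow_pos_of_pos h2Q _
  have hQ2 : Q ^ 2 = 2 * Q0 := by
    rw [hQ, ← Real.rpow_natCast, ← Real.rpow_mul h2Q.le]
    norm_num
  set w : ℝ → ℝ := fun y => min 1 ((Q / y) ^ ((m : ℝ) + 1)) with hwdef
  have hwle : ∀ i, ∀ y : ℝ, 0 < y → wK m (κ i) (m + 1) y ≤ w y := by
    intro i y hy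
    obtain ⟨h1, -, h3⟩ := hκ i
    have hκ0 : (0 : ℝ) < κ i := by linarith
    have h4 : κ i ^ ((m : ℝ) / 2) ≤ Q := by
      have h5 : κ i ^ ((m : ℝ) / 2) = (κ i ^ m) ^ ((1 : ℝ) / 2) := by
        rw [← Real.rpow_natCast, ← Real.rpow_mul hκ0.le]
        congr 1
        ring
      rw [h5, hQ]
      exact Real.rpow_le_rpow (by positivity) h3 (by norm_num)
    show min 1 ((κ i ^ ((m : ℝ) / 2) / y) ^ ((m : ℝ) + 1)) ≤ min 1 ((Q / y) ^ ((m : ℝ) + 1))
    refine min_le_min le_rfl ?_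
    refine Real.rpow_le_rpow (by positivity) ?_ (by positivity)
    exact div_le_div_of_nonneg_right h4 hy.le
  have hw0 : ∀ y : ℝ, 0 < y → 0 ≤ w y := by
    intro y hy
    exact le_min zero_le_one (Real.rpow_nonneg (by positivity) _)
  -- the pointwise bound
  have hpt : ∀ y : ℝ, 1 < y →
      ∑ i, ‖DF m 1 (lam i) y‖ ^ 4 *
        (y ^ (-((m : ℝ) / 2) - 1) * w y * y ^ (3 / 4 * (1 + s))) ^ 4 ≤
      B * CL * (2 ^ m * 2 ^ m) * Q ^ (5 * s) * y ^ (-s - 1) := by
    intro y hy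
    have hy0 : 0 < y := by linarith
    have hwy := hw0 y hy0
    have e1 : (y ^ (-((m : ℝ) / 2) - 1) * w y * y ^ (3 / 4 * (1 + s))) ^ 4 =
        (y ^ (2 * m))⁻¹ * y ^ (3 * s - 1) * w y ^ 4 := by
      rw [mul_pow, mul_pow]
      have e2 : (y ^ (-((m : ℝ) / 2) - 1)) ^ 4 = y ^ (-(2 * (m : ℝ)) - 4) := by
        rw [← Real.rpow_natCast, ← Real.rpow_mul hy0.le]
        congr 1
        push_cast
        ring
      have e3 : (y ^ (3 / 4 * (1 + s))) ^ 4 = y ^ (3 + 3 * s) := by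
        rw [← Real.rpow_natCast, ← Real.rpow_mul hy0.le]
        congr 1
        push_cast
        ring
      have e4 : (y ^ (2 * m))⁻¹ = y ^ (-(2 * (m : ℝ))) := by
        rw [Real.rpow_neg hy0.le]
        congr 1
        rw [← Real.rpow_natCast]
        push_cast
        rfl
      rw [e2, e3, e4]
      have e5 : y ^ (-(2 * (m : ℝ)) - 4) * w y ^ 4 * y ^ (3 + 3 * s) =
          y ^ (-(2 * (m : ℝ)) - 4) * y ^ (3 + 3 * s) * w y ^ 4 := by ring
      rw [e5, ← Real.rpow_add hy0, ← Real.rpow_add hy0]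
      congr 2
      ring
    rw [← Finset.sum_mul, e1]
    have h1 := hyp y hy.le
    have h2 : (1 + y ^ 2 / Q0) ^ m ≤ 2 ^ m * (1 + (y / Q) ^ 2) ^ m := by
      rw [← mul_pow]
      refine pow_le_pow_left₀ (by positivity) ?_ m
      rw [div_pow, hQ2]
      have e6 : y ^ 2 / Q0 = 2 * (y ^ 2 / (2 * Q0)) := by
        field_simp
      rw [e6]
      linarith
    have h3 := log_bd K0 hs0 hy.le
    have h4 := w_bd m hQ0 hy0 (t := 5 * s) (by positivity) hs1
    have h4' : (1 + (y / Q) ^ 2) ^ m * w y ^ 4 ≤ 2 ^ m * (Q / y) ^ (5 * s) := h4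
    have hlog : (0 : ℝ) ≤ 1 + Real.log y := by
      have := Real.log_nonneg hy.le
      linarith
    have hy2 : (0 : ℝ) < y ^ (2 * m) := by positivity
    have hR : (0 : ℝ) < y ^ (3 * s - 1) := Real.rpow_pos_of_pos hy0 _
    calc (∑ i, ‖DF m 1 (lam i) y‖ ^ 4) * ((y ^ (2 * m))⁻¹ * y ^ (3 * s - 1) * w y ^ 4)
        ≤ (B * (1 + Real.log y) ^ K0 * y ^ (2 * m) * (2 ^ m * (1 + (y / Q) ^ 2) ^ m)) *
          ((y ^ (2 * m))⁻¹ * y ^ (3 * s - 1) * w y ^ 4) := by
          refine mul_le_mul_of_nonneg_right (h1.trans ?_) (by positivity)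
          exact mul_le_mul_of_nonneg_left h2 (by positivity)
      _ = 2 ^ m * (B * (1 + Real.log y) ^ K0 * y ^ (3 * s - 1) *
            ((1 + (y / Q) ^ 2) ^ m * w y ^ 4)) := by
          field_simp
      _ ≤ 2 ^ m * (B * (CL * y ^ s) * y ^ (3 * s - 1) * (2 ^ m * (Q / y) ^ (5 * s))) := by
          refine mul_le_mul_of_nonneg_left ?_ (by positivity)
          refine mul_le_mul ?_ h4' (by positivity) (by positivity)
          refine mul_le_mul_of_nonneg_right ?_ hR.le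
          exact mul_le_mul_of_nonneg_left h3 hB
      _ = B * CL * (2 ^ m * 2 ^ m) * Q ^ (5 * s) * y ^ (-s - 1) := by
          rw [Real.div_rpow hQ0.le hy0.le]
          have e6 : y ^ (-s - 1) = y ^ s * y ^ (3 * s - 1) / y ^ (5 * s) := by
            rw [← Real.rpow_add hy0, ← Real.rpow_sub hy0]
            congr 1
            ring
          rw [e6]
          ring
  -- the functions
  let a : ℝ → ENNReal := fun y => ENNReal.ofReal (y ^ (-(3 / 4 * (1 + s))))
  let b : ι → ℝ → ENNReal := fun i y => ENNReal.ofReal (‖DF m 1 (lam i) y‖ *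
    (y ^ (-((m : ℝ) / 2) - 1) * w y * y ^ (3 / 4 * (1 + s))))
  have ha : Measurable a := by
    apply Measurable.ennreal_ofReal
    exact measurable_id.pow_const _
  have hwm : Measurable w := by
    exact measurable_const.min ((measurable_const.div measurable_id).pow_const _)
  have hb : ∀ i, Measurable (b i) := by
    intro i
    apply Measurable.ennreal_ofReal
    refine (meas_DF m 1 (lam i)).norm.mul ?_
    exact ((measurable_id.pow_const _).mul hwm).mul (measurable_id.pow_const _)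
  have hA : ∫⁻ y in Set.Ioi (1 : ℝ), a y ^ (4 / 3 : ℝ) = ENNReal.ofReal (1 / s) := by
    rw [← int_pow zero_le_one hs0]
    refine setLIntegral_congr_fun measurableSet_Ioi fun y hy => ?_
    have hy0 : (0 : ℝ) < y := lt_trans one_pos hy
    show ENNReal.ofReal (y ^ (-(3 / 4 * (1 + s)))) ^ (4 / 3 : ℝ) = _
    rw [ENNReal.ofReal_rpow_of_pos (Real.rpow_pos_of_pos hy0 _), ← Real.rpow_mul hy0.le, one_mul]
    congr 2
    ring
  have hH : ∀ i, (∫⁻ y in Set.Ioi (1 : ℝ), ENNReal.ofReal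
      (‖DF m 1 (lam i) y‖ * y ^ (-((m : ℝ) / 2) - 1) * wK m (κ i) (m + 1) y)) ^ 4 ≤
      ENNReal.ofReal (1 / s) ^ 3 * ∫⁻ y in Set.Ioi (1 : ℝ), b i y ^ 4 := by
    intro i
    have hpq : (4 / 3 : ℝ).HolderConjugate 4 := by
      rw [Real.holderConjugate_iff]
      norm_num
    have h1 := ENNReal.lintegral_mul_le_Lp_mul_Lq (volume.restrict (Set.Ioi (1 : ℝ))) hpq
      ha.aemeasurable (hb i).aemeasurable
    have h2 : ∫⁻ y in Set.Ioi (1 : ℝ), ENNReal.ofReal
        (‖DF m 1 (lam i) y‖ * y ^ (-((m : ℝ) / 2) - 1) * wK m (κ i) (m + 1) y) ≤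
        ∫⁻ y in Set.Ioi (1 : ℝ), (a * b i) y := by
      refine setLIntegral_mono_ae (ha.mul (hb i)).aemeasurable ?_
      refine Filter.Eventually.of_forall fun y hy => ?_
      have hy0 : (0 : ℝ) < y := lt_trans one_pos hy
      show _ ≤ a y * b i y
      show _ ≤ ENNReal.ofReal (y ^ (-(3 / 4 * (1 + s)))) * ENNReal.ofReal (‖DF m 1 (lam i) y‖ *
        (y ^ (-((m : ℝ) / 2) - 1) * w y * y ^ (3 / 4 * (1 + s))))
      rw [← ENNReal.ofReal_mul (Real.rpow_nonneg hy0.le _)]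
      apply ENNReal.ofReal_le_ofReal
      have e : y ^ (-(3 / 4 * (1 + s))) * y ^ (3 / 4 * (1 + s)) = 1 := by
        rw [← Real.rpow_add hy0]
        simp
      have hpos : 0 ≤ ‖DF m 1 (lam i) y‖ * y ^ (-((m : ℝ) / 2) - 1) :=
        mul_nonneg (norm_nonneg _) (Real.rpow_nonneg hy0.le _)
      calc ‖DF m 1 (lam i) y‖ * y ^ (-((m : ℝ) / 2) - 1) * wK m (κ i) (m + 1) y
          ≤ ‖DF m 1 (lam i) y‖ * y ^ (-((m : ℝ) / 2) - 1) * w y :=
            mul_le_mul_of_nonneg_left (hwle i y hy0) hpos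
        _ = ‖DF m 1 (lam i) y‖ * y ^ (-((m : ℝ) / 2) - 1) * w y *
            (y ^ (-(3 / 4 * (1 + s))) * y ^ (3 / 4 * (1 + s))) := by rw [e, mul_one]
        _ = _ := by ring
    refine (pow_le_pow_left' (h2.trans h1) 4).trans (le_of_eq ?_)
    rw [mul_pow, hA]
    congr 1
    · rw [← ENNReal.rpow_natCast, ← ENNReal.rpow_mul, ← ENNReal.rpow_natCast]
      congr 1
      norm_num
    · rw [← ENNReal.rpow_natCast, ← ENNReal.rpow_mul]
      have e : (1 / 4 : ℝ) * ((4 : ℕ) : ℝ) = 1 := by norm_num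
      rw [e, ENNReal.rpow_one]
      refine lintegral_congr fun y => ?_
      rw [← ENNReal.rpow_natCast]
      norm_num
  calc ∑ i, (∫⁻ y in Set.Ioi (1 : ℝ), ENNReal.ofReal
      (‖DF m 1 (lam i) y‖ * y ^ (-((m : ℝ) / 2) - 1) * wK m (κ i) (m + 1) y)) ^ 4
      ≤ ∑ i, ENNReal.ofReal (1 / s) ^ 3 * ∫⁻ y in Set.Ioi (1 : ℝ), b i y ^ 4 :=
        Finset.sum_le_sum fun i _ => hH i
    _ = ENNReal.ofReal (1 / s) ^ 3 * ∫⁻ y in Set.Ioi (1 : ℝ), ∑ i, b i y ^ 4 := by
        rw [← Finset.mul_sum, lintegral_finsetSum _ fun i _ => (hb i).pow_const 4]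
    _ ≤ ENNReal.ofReal (1 / s) ^ 3 * ∫⁻ y in Set.Ioi (1 : ℝ), ENNReal.ofReal
          (B * CL * (2 ^ m * 2 ^ m) * Q ^ (5 * s) * y ^ (-s - 1)) := by
        refine mul_le_mul' le_rfl ?_
        refine setLIntegral_mono_ae ?_ ?_
        · apply AEMeasurable.ennreal_ofReal
          exact (measurable_const.mul (measurable_id.pow_const _)).aemeasurable
        · refine Filter.Eventually.of_forall fun y hy => ?_
          have hy0 : (0 : ℝ) < y := lt_trans one_pos hy
          refine le_trans (le_of_eq ?_) (ENNReal.ofReal_le_ofReal (hpt y hy))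
          have hwy := hw0 y hy0
          rw [ENNReal.ofReal_sum_of_nonneg]
          · refine Finset.sum_congr rfl fun i _ => ?_
            show ENNReal.ofReal _ ^ 4 = _
            rw [← ENNReal.ofReal_pow (by positivity), mul_pow]
          · intro i _
            positivity
    _ = ENNReal.ofReal (1 / s) ^ 3 *
          ENNReal.ofReal (B * CL * (2 ^ m * 2 ^ m) * Q ^ (5 * s) / s) := by
        rw [int_pow (by positivity) hs0]
    _ ≤ ENNReal.ofReal ((1 / s) ^ 3 * (CL * (2 ^ m * 2 ^ m) / s) * 2 * B * Q0 ^ ε) := by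
        rw [← ENNReal.ofReal_pow (by positivity), ← ENNReal.ofReal_mul (by positivity)]
        apply ENNReal.ofReal_le_ofReal
        have h1 : Q ^ (5 * s) ≤ 2 * Q0 ^ ε := by
          rw [hQ, ← Real.rpow_mul h2Q.le, Real.mul_rpow (by norm_num) hQ00.le]
          refine mul_le_mul ?_ ?_ (Real.rpow_nonneg hQ00.le _) (by norm_num)
          · calc (2 : ℝ) ^ (1 / 2 * (5 * s)) ≤ 2 ^ (1 : ℝ) :=
                Real.rpow_le_rpow_of_exponent_le (by norm_num) (by linarith)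
              _ = 2 := Real.rpow_one 2
          · exact Real.rpow_le_rpow_of_exponent_le hQ1 hs2
        have e : (1 / s) ^ 3 * (B * CL * (2 ^ m * 2 ^ m) * Q ^ (5 * s) / s) =
            (1 / s) ^ 3 * (CL * (2 ^ m * 2 ^ m) / s) * B * Q ^ (5 * s) := by ring
        have e' : (1 / s) ^ 3 * (CL * (2 ^ m * 2 ^ m) / s) * 2 * B * Q0 ^ ε =
            (1 / s) ^ 3 * (CL * (2 ^ m * 2 ^ m) / s) * B * (2 * Q0 ^ ε) := by ring
        rw [e, e']
        exact mul_le_mul_of_nonneg_left h1 (by positivity)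

end Pool.Agent.H11.GU
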