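import Pool.Agent.H34.GU.Targets1

/-!
# Row KLI of the board gu (MP_52e316_nt): the kernel lattices of the vectors modulo `N`
-/

set_option autoImplicit false

namespace Pool.Agent.H11.GU

open MeasureTheory Pool.Agent.H34.GM Pool.Agent.H34.GZ Pool.Agent.H34.GU

/-- the linear form of a vector modulo `N` -/
def kli_f {m N : ℕ} (x : VN m N) : (Fin m → ℤ) →+ ZMod N where
  toFun := fun c => ∑ i, (c i : ZMod N) * x i
  map_zero' := by simp
  map_add' := by
    intro a b
    simp only [Pi.add_apply, Int.cast_add, add_mul, Finset.sum_add_distrib]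

theorem kli_ker {m N : ℕ} (x : VN m N) : (kli_f x).ker = kl x := by
  ext c
  rw [AddMonoidHom.mem_ker]
  rfl

theorem kli_lift {m N : ℕ} (u : VN m N) : ∃ U : Fin m → ℤ, ∀ i, (U i : ZMod N) = u i := by
  have h : ∀ i, ∃ z : ℤ, (z : ZMod N) = u i := fun i => ZMod.intCast_surjective (u i)
  choose U hU using h
  exact ⟨U, hU⟩

theorem kli_surj {m N : ℕ} (x : VN m N) (hx : Pr x) : Function.Surjective (kli_f x) := by
  obtain ⟨u, hu⟩ := hx
  intro a
  obtain ⟨U, hU⟩ := kli_lift (fun i => a * u i)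
  refine ⟨U, ?_⟩
  show ∑ i, (U i : ZMod N) * x i = a
  have h1 : ∑ i, (U i : ZMod N) * x i = a * ∑ i, u i * x i := by
    rw [Finset.mul_sum]
    refine Finset.sum_congr rfl fun i _ => ?_
    rw [hU i]
    ring
  have h2 : ∑ i, u i * x i = 1 := hu
  rw [h1, h2, mul_one]

theorem kli_index {m N : ℕ} (x : VN m N) (hx : Pr x) : (kl x).index = N := by
  rw [← kli_ker, AddSubgroup.index_ker, AddMonoidHom.range_eq_top.2 (kli_surj x hx)]
  have h1 : Nat.card (⊤ : AddSubgroup (ZMod N)) = Nat.card (ZMod N) :=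
    Nat.card_congr AddSubgroup.topEquiv.toEquiv
  rw [h1, Nat.card_zmod]

theorem kli_eq {m N : ℕ} (x0 x : VN m N) (h0 : Pr x0) (h : kl x = kl x0) :
    ∃ t : ZMod N, x = fun i => t * x0 i := by
  obtain ⟨u, hu⟩ := h0
  obtain ⟨U, hU⟩ := kli_lift u
  obtain ⟨X, hX⟩ := kli_lift x0
  refine ⟨∑ i, u i * x i, ?_⟩
  funext j
  have h1 : (fun i => (if i = j then (1 : ℤ) else 0) - X j * U i) ∈ kl x0 := by
    show ∑ i, (((if i = j then (1 : ℤ) else 0) - X j * U i : ℤ) : ZMod N) * x0 i = 0
    have e : ∀ i, (((if i = j then (1 : ℤ) else 0) - X j * U i : ℤ) : ZMod N) * x0 i =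
        (if i = j then x0 i else 0) - x0 j * (u i * x0 i) := by
      intro i
      push_cast
      rw [hU i, hX j]
      split_ifs <;> ring
    rw [Finset.sum_congr rfl fun i _ => e i, Finset.sum_sub_distrib, ← Finset.mul_sum]
    have hu' : ∑ i, u i * x0 i = 1 := hu
    rw [hu']
    simp
  rw [← h] at h1
  have h2 : ∑ i, (((if i = j then (1 : ℤ) else 0) - X j * U i : ℤ) : ZMod N) * x i = 0 := h1
  have e : ∀ i, (((if i = j then (1 : ℤ) else 0) - X j * U i : ℤ) : ZMod N) * x i =
      (if i = j then x i else 0) - x0 j * (u i * x i) := by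
    intro i
    push_cast
    rw [hU i, hX j]
    split_ifs <;> ring
  rw [Finset.sum_congr rfl fun i _ => e i, Finset.sum_sub_distrib, ← Finset.mul_sum] at h2
  have h3 : ∑ i, (if i = j then x i else 0) = x j := by simp
  rw [h3, sub_eq_zero] at h2
  rw [h2]
  ring

theorem pf_KLI : T_KLI := by
  classical
  intro m N _ hm hN
  refine ⟨fun x hx => kli_index x hx, ?_⟩
  intro M
  rcases Set.eq_empty_or_nonempty {x : VN m N | Pr x ∧ kl x = M} with h | ⟨x0, h0, hM⟩
  · rw [h, Set.ncard_empty]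
    exact Nat.zero_le _
  · have hsub : {x : VN m N | Pr x ∧ kl x = M} ⊆
        Set.range (fun t : ZMod N => (fun i => t * x0 i : VN m N)) := by
      rintro x ⟨hx, hxM⟩
      obtain ⟨t, ht⟩ := kli_eq x0 x h0 (hxM.trans hM.symm)
      exact ⟨t, ht.symm⟩
    refine (Set.ncard_le_ncard hsub (Set.finite_range _)).trans ?_
    rw [← Set.image_univ]
    refine (Set.ncard_image_le Set.finite_univ).trans ?_
    rw [Set.ncard_univ, Nat.card_zmod]

end Pool.Agent.H11.GU
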